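import Pool.Agent.Helper88.MT.Stm
import Pool.Graph.R_pool_sql_team_seeded_5cf16337.K3h82.OP.RatPt

/-!
# Package LAM
-/

set_option autoImplicit false

open NumberField IsDedekindDomain

namespace Pool.Agent.Helper45.MT

theorem lam : Pool.Agent.Helper88.MT.S_lam := by
  classical
  intro k _ _ S hS
  obtain ⟨v, hv⟩ := Pool.Agent.K3h82.OP.exists_unit_place (K := k) (insert 2 S) (by
    intro x hx
    rcases Finset.mem_insert.1 hx with rfl | hx
    · exact two_ne_zero
    · exact hS x hx)
  have hv2 : v.valuation k 2 = 1 := hv 2 (Finset.mem_insert_self _ _)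
  have hvS : ∀ e ∈ S, v.valuation k e = 1 := fun e he => hv e (Finset.mem_insert_of_mem he)
  have _ : v.asIdeal.IsMaximal := v.isMaximal
  let _ : Field (𝓞 k ⧸ v.asIdeal) := Ideal.Quotient.field _
  have hfin : Finite (𝓞 k ⧸ v.asIdeal) := Ring.HasFiniteQuotients.finiteQuotient v.ne_bot
  have hmem : ∀ r : 𝓞 k, v.valuation k (algebraMap (𝓞 k) k r) = 1 ↔
      Ideal.Quotient.mk v.asIdeal r ≠ 0 := by
    intro r
    rw [HeightOneSpectrum.valuation_eq_one_iff_notMem, Ne, Ideal.Quotient.eq_zero_iff_mem]
  have hchar : ringChar (𝓞 k ⧸ v.asIdeal) ≠ 2 := by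
    intro h
    have h1 : ((2 : ℕ) : 𝓞 k ⧸ v.asIdeal) = 0 := by
      rw [← h]
      exact ringChar.Nat.cast_ringChar
    have h2 := (hmem 2).1 (by
      rw [map_ofNat]
      exact hv2)
    apply h2
    rw [map_ofNat]
    exact_mod_cast h1
  obtain ⟨a, ha⟩ := FiniteField.exists_nonsquare hchar
  obtain ⟨l, rfl⟩ := Ideal.Quotient.mk_surjective a
  obtain ⟨m, hm⟩ := v.valuation_exists_uniformizer k
  have hl : v.valuation k (algebraMap (𝓞 k) k l) = 1 := by
    rw [hmem]
    intro h
    apply ha
    rw [h]
    exact ⟨0, by rw [mul_zero]⟩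
  have h1l : v.valuation k (1 - algebraMap (𝓞 k) k l) = 1 := by
    rw [← map_one (algebraMap (𝓞 k) k), ← map_sub, hmem]
    intro h
    apply ha
    rw [map_sub, map_one, sub_eq_zero] at h
    exact ⟨1, by rw [mul_one, ← h]⟩
  refine ⟨v, algebraMap (𝓞 k) k l, m, hvS, hl, h1l, hm, fun u z => ?_⟩
  rcases lt_trichotomy (v.valuation k u) (v.valuation k z) with huz | huz | huz
  · rw [max_eq_right huz.le]
    have h1 : v.valuation k (u ^ 2) < v.valuation k (algebraMap (𝓞 k) k l * z ^ 2) := by
      rw [map_mul, hl, one_mul, map_pow, map_pow]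
      exact pow_lt_pow_left₀ huz zero_le two_ne_zero
    rw [Valuation.map_sub_eq_of_lt_right _ h1, map_mul, hl, one_mul, map_pow]
  · rw [huz, max_self]
    by_cases hz : z = 0
    · subst hz
      rw [map_zero] at huz
      rw [(map_eq_zero _).1 huz]
      simp
    · have hvz : v.valuation k z ≠ 0 := (Valuation.ne_zero_iff _).2 hz
      have h1 : u ^ 2 - algebraMap (𝓞 k) k l * z ^ 2 =
          ((u / z) ^ 2 - algebraMap (𝓞 k) k l) * z ^ 2 := by
        field_simp
      rw [h1, map_mul, map_pow]
      have h2 : v.valuation k (u / z) = 1 := by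
        rw [map_div₀, huz, div_self hvz]
      have h3 : v.valuation k ((u / z) ^ 2 - algebraMap (𝓞 k) k l) = 1 := by
        by_contra h4
        have h5 : v.valuation k ((u / z) ^ 2 - algebraMap (𝓞 k) k l) ≤ 1 := by
          refine (Valuation.map_sub _ _ _).trans ?_
          rw [map_pow, h2, one_pow, hl, max_self]
        have h6 := lt_of_le_of_ne h5 h4
        obtain ⟨r, hr⟩ := v.exists_valuation_sub_lt_of_integer h2.le 1
        rw [Units.val_one] at hr
        have h7 : v.valuation k (algebraMap (𝓞 k) k (r ^ 2 - l)) < 1 := by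
          have h8 : algebraMap (𝓞 k) k (r ^ 2 - l) =
              (algebraMap (𝓞 k) k r - u / z) * (algebraMap (𝓞 k) k r + u / z) +
              ((u / z) ^ 2 - algebraMap (𝓞 k) k l) := by
            rw [map_sub, map_pow]
            ring
          rw [h8]
          refine Valuation.map_add_lt _ ?_ h6
          rw [map_mul]
          have h9 : v.valuation k (algebraMap (𝓞 k) k r + u / z) ≤ 1 := by
            refine (Valuation.map_add _ _ _).trans ?_
            rw [h2]
            exact max_le (v.valuation_le_one r) le_rfl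
          calc v.valuation k (algebraMap (𝓞 k) k r - u / z) *
              v.valuation k (algebraMap (𝓞 k) k r + u / z)
              ≤ v.valuation k (algebraMap (𝓞 k) k r - u / z) * 1 := mul_le_mul_right h9 _
            _ < 1 := by rwa [mul_one]
        have h10 : Ideal.Quotient.mk v.asIdeal (r ^ 2 - l) = 0 := by
          by_contra h11
          exact h7.ne ((hmem _).2 h11)
        apply ha
        rw [map_sub, sub_eq_zero, map_pow] at h10
        exact ⟨Ideal.Quotient.mk v.asIdeal r, by rw [← h10, pow_two]⟩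
      rw [h3, one_mul]
  · rw [max_eq_left huz.le]
    have h1 : v.valuation k (algebraMap (𝓞 k) k l * z ^ 2) < v.valuation k (u ^ 2) := by
      rw [map_mul, hl, one_mul, map_pow, map_pow]
      exact pow_lt_pow_left₀ huz zero_le two_ne_zero
    rw [Valuation.map_sub_eq_of_lt_left _ h1, map_pow]

end Pool.Agent.Helper45.MT
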